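import Pool.Agent.Helper49.KR.St

/-!
# Project KR, module LSC (rank is lower semicontinuous and periodic)
-/

set_option autoImplicit false

namespace Pool.Agent.Helper80.KR

open Finset Filter Topology Module
open Pool.Agent.Helper49.KX Pool.Agent.Helper49.KR

theorem cw_cont (θ : ℝ) (r : ℕ) (g : FS X0) : Continuous (fun s : ℝ => cw θ r g s) := by
  refine continuous_pi fun k => continuous_pi fun i => ?_
  unfold cw
  refine (g (((k : ℕ) : ℤ) - ((i : ℕ) : ℤ))).continuous.comp ?_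
  exact (AddCircle.continuous_mk' (1 : ℝ)).comp (by fun_prop)

theorem cw_per (θ : ℝ) (r : ℕ) (g : FS X0) (s : ℝ) : cw θ r g (s + 1) = cw θ r g s := by
  funext k i
  unfold cw
  congr 1
  rw [show s + 1 + ((k : ℕ) : ℝ) * θ = (s + ((k : ℕ) : ℝ) * θ) + 1 by ring]
  exact AddCircle.coe_add_period (1 : ℝ) _

theorem hLSC : StLsc := by
  intro θ g N ℓ
  refine ⟨fun k => ?_, fun s => ?_⟩
  · rw [isOpen_iff_mem_nhds]
    intro s0 hs0
    have hk : k ≤ finrank ℂ (im (cw θ ℓ g s0) (SB ℓ N)) := hs0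
    have hb := (finBasis ℂ (im (cw θ ℓ g s0) (SB ℓ N))).linearIndependent
    have hb2 : LinearIndependent ℂ (fun i : Fin k =>
        ((finBasis ℂ (im (cw θ ℓ g s0) (SB ℓ N)) (Fin.castLE hk i) : im (cw θ ℓ g s0) (SB ℓ N)) : Fin ℓ → ℂ)) :=
      (hb.map' (Submodule.subtype _) (Submodule.ker_subtype _)).comp (Fin.castLE hk) (Fin.castLE_injective hk)
    have hw : ∀ i : Fin k, ∃ w ∈ Zs ℓ (SB ℓ N), Matrix.mulVecLin (cw θ ℓ g s0) w =
        ((finBasis ℂ (im (cw θ ℓ g s0) (SB ℓ N)) (Fin.castLE hk i) : im (cw θ ℓ g s0) (SB ℓ N)) : Fin ℓ → ℂ) := by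
      intro i
      exact Submodule.mem_map.1 (finBasis ℂ (im (cw θ ℓ g s0) (SB ℓ N)) (Fin.castLE hk i)).2
    choose w hw1 hw2 using hw
    have hcont : Continuous (fun s : ℝ => fun i : Fin k => Matrix.mulVec (cw θ ℓ g s) (w i)) := by
      refine continuous_pi fun i => ?_
      exact (cw_cont θ ℓ g).matrix_mulVec continuous_const
    have hop : IsOpen {s : ℝ | LinearIndependent ℂ (fun i : Fin k => Matrix.mulVec (cw θ ℓ g s) (w i))} :=
      (isOpen_setOfPred_linearIndependent (𝕜 := ℂ) (ι := Fin k) (E := Fin ℓ → ℂ)).preimage hcont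
    have hs1 : s0 ∈ {s : ℝ | LinearIndependent ℂ (fun i : Fin k => Matrix.mulVec (cw θ ℓ g s) (w i))} := by
      have : (fun i : Fin k => Matrix.mulVec (cw θ ℓ g s0) (w i)) = (fun i : Fin k =>
        ((finBasis ℂ (im (cw θ ℓ g s0) (SB ℓ N)) (Fin.castLE hk i) : im (cw θ ℓ g s0) (SB ℓ N)) : Fin ℓ → ℂ)) := by
        funext i
        rw [← hw2 i]
        rfl
      show LinearIndependent ℂ (fun i : Fin k => Matrix.mulVec (cw θ ℓ g s0) (w i))
      rw [this]
      exact hb2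
    filter_upwards [hop.mem_nhds hs1] with s hs
    show k ≤ finrank ℂ (im (cw θ ℓ g s) (SB ℓ N))
    have hmem : ∀ i : Fin k, Matrix.mulVec (cw θ ℓ g s) (w i) ∈ im (cw θ ℓ g s) (SB ℓ N) := by
      intro i
      exact Submodule.mem_map.2 ⟨w i, hw1 i, rfl⟩
    have hli : LinearIndependent ℂ (fun i : Fin k => (⟨Matrix.mulVec (cw θ ℓ g s) (w i), hmem i⟩ : im (cw θ ℓ g s) (SB ℓ N))) := by
      apply LinearIndependent.of_comp (Submodule.subtype _)
      exact hs
    have h := hli.fintype_card_le_finrank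
    rwa [Fintype.card_fin] at h
  · unfold rk
    rw [cw_per]

end Pool.Agent.Helper80.KR
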